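import Pool.Agent.QPI.Stmts

/-!
Squad QPI, row B_UPA.
-/

namespace Pool.Agent.QPI.H72

open Pool.Agent.QPI

theorem th_mul {S : Type} [CommRing S] (g h : PowerSeries S) :
    th (g * h) = th g * h + g * th h := by
  ext n
  simp only [th, PowerSeries.coeff_mk, map_add, PowerSeries.coeff_mul, Finset.mul_sum]
  rw [← Finset.sum_add_distrib]
  refine Finset.sum_congr rfl fun p hp => ?_
  have h1 : p.1 + p.2 = n := Finset.HasAntidiagonal.mem_antidiagonal.1 hp
  have h2 : ((n : ℕ) : S) = (p.1 : S) + (p.2 : S) := by rw [← h1]; push_cast; ring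
  rw [h2]; ring

theorem th_one {S : Type} [CommRing S] : th (1 : PowerSeries S) = 0 := by
  ext n
  simp only [th, PowerSeries.coeff_mk, PowerSeries.coeff_one, map_zero]
  split_ifs with h
  · subst h; simp
  · simp

theorem th_pow {S : Type} [CommRing S] (g u : PowerSeries S) (h : g * u = 1) (n : ℕ) :
    th (g ^ n) = ((n : PowerSeries S) * (th g * u)) * g ^ n := by
  induction n with
  | zero => simp [th_one]
  | succ n ih =>
    rw [pow_succ, th_mul, ih]
    have h3 : g ^ n * th g = g ^ n * th g * (g * u) := by rw [h, mul_one]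
    rw [h3]
    push_cast
    ring

theorem th_prod {S : Type} [CommRing S] {m : ℕ} (f u : Fin m → PowerSeries S) (e : Fin m → ℕ)
    (h : ∀ j, f j * u j = 1) (s : Finset (Fin m)) :
    th (∏ j ∈ s, f j ^ e j) =
      (∑ j ∈ s, (e j : PowerSeries S) * (th (f j) * u j)) * ∏ j ∈ s, f j ^ e j := by
  classical
  induction s using Finset.induction_on with
  | empty => simp [th_one]
  | insert a s ha ih =>
    rw [Finset.prod_insert ha, Finset.sum_insert ha, th_mul, ih, th_pow (f a) (u a) (h a)]
    ring

theorem upa : UpaStmt := by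
  intro S _ m f e P hf a
  have hu : ∀ j, f j * PowerSeries.invOfUnit (f j) 1 = 1 := fun j =>
    PowerSeries.mul_invOfUnit (f j) 1 (by simpa using hf j)
  have hU : th (∏ j, f j ^ e j) = dlog f e * ∏ j, f j ^ e j := by
    rw [th_prod f (fun j => PowerSeries.invOfUnit (f j) 1) e hu Finset.univ]
    rfl
  induction a with
  | zero => rfl
  | succ a ih =>
    rw [Function.iterate_succ_apply', ih, th_mul, hU]
    show _ = _ * (th (Pa (dlog f e) P a) + dlog f e * Pa (dlog f e) P a)
    ring

end Pool.Agent.QPI.H72
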